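import Mathlib
import Pool.Agent.TH461.AL.Uni
import Pool.Agent.TH461.AL.Nl

/-!
Far cells of the lines `a x b ^ i q ^ n` after the place `s`, for numbers `x` which are badly
approximable by the fractions with denominators `N a b ^ s q ^ n`.
-/

set_option autoImplicit false

open Finset Filter Topology

namespace Pool.Agent.Y951.SW

open Pool.Agent.TH461.AL
open Pool.Agent.H706R2 (dZ round_run)

/-- `x` is not well approximated by the fractions with denominators `N a b ^ s q ^ n` -/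
def Meas (b q : ℕ) (x κ κ1 : ℝ) : Prop :=
  ∀ N : ℕ, 1 ≤ N → ∃ c0 : ℝ, 0 < c0 ∧ ∀ a : ℕ, 1 ≤ a → ∀ s n : ℕ, ∀ P : ℤ,
    c0 ≤ (a : ℝ) ^ κ1 * ((b : ℝ) ^ s * (q : ℝ) ^ n) ^ κ *
      |(N : ℝ) * (a * x) * (b : ℝ) ^ s * (q : ℝ) ^ n - P|

/-- a far cell not far after the place `s` -/
lemma exists_far {b q : ℕ} (hb : 2 ≤ b) (hq : 2 ≤ q) {r : ℝ}
    (hrb : ((b : ℝ) + 1) * r ≤ 1) {x κ κ1 : ℝ} (hκ : 0 < κ) (hκ1 : 0 ≤ κ1)
    (hx : Meas b q x κ κ1) {N : ℕ} (hN : 1 ≤ N) :
    ∃ K : ℝ, 0 ≤ K ∧ ∀ a : ℕ, 1 ≤ a → ∀ s n : ℕ, ∃ i : ℕ, s ≤ i ∧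
      (i : ℝ) ≤ s + κ * (s + n * Real.log q / Real.log b) + κ1 * (Real.log a / Real.log b) + K ∧
      Fa b q r (N * (a * x)) i n := by
  obtain ⟨c0, hc0, hx⟩ := hx N hN
  have hbR : (2 : ℝ) ≤ b := by exact_mod_cast hb
  have hb0 : (0 : ℝ) < b := by positivity
  have hq0 : (0 : ℝ) < q := by positivity
  have hlb : 0 < Real.log b := Real.log_pos (by linarith)
  have hr1 : r < 1 := by nlinarith
  refine ⟨|Real.log c0| / Real.log b + 1, by positivity, fun a ha s n => ?_⟩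
  have haR : (1 : ℝ) ≤ a := by exact_mod_cast ha
  have ha0 : (0 : ℝ) < a := by linarith
  have hla : 0 ≤ Real.log a := Real.log_nonneg haR
  have hlq : 0 ≤ Real.log q := Real.log_natCast_nonneg q
  set X : ℝ := κ * (s + n * Real.log q / Real.log b) + κ1 * (Real.log a / Real.log b) +
    |Real.log c0| / Real.log b with hX
  have hX0 : 0 ≤ X := by positivity
  set A : ℕ := ⌈X⌉₊ with hA
  have hA1 : X ≤ A := Nat.le_ceil X
  have hA2 : (A : ℝ) < X + 1 := Nat.ceil_lt_add_one hX0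
  by_contra hcon
  push Not at hcon
  set z : ℝ := (N : ℝ) * (a * x) * (b : ℝ) ^ s * (q : ℝ) ^ n with hz
  have hnear : ∀ k ≤ A, dZ ((b : ℝ) ^ k * z) < r := by
    intro k hk
    have hkR : (k : ℝ) ≤ A := by exact_mod_cast hk
    have h1 := hcon (s + k) (Nat.le_add_right _ _) (by
      push_cast
      rw [hX] at hA2
      linarith)
    unfold Fa at h1
    push Not at h1
    have e : (N : ℝ) * (a * x) * (b : ℝ) ^ (((s + k : ℕ)) : ℤ) * (q : ℝ) ^ ((n : ℕ) : ℤ) =
        (b : ℝ) ^ k * z := by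
      rw [zpow_natCast, zpow_natCast, hz, pow_add]
      ring
    rw [e] at h1
    exact h1
  have h1 := round_run hrb A hnear
  have h2 := hnear A le_rfl
  have h3 : (b : ℝ) ^ A * dZ z < r := by
    unfold dZ at h2
    rw [h1] at h2
    push_cast at h2
    rw [← mul_sub, abs_mul, abs_of_pos (by positivity)] at h2
    exact h2
  set Q : ℝ := (a : ℝ) ^ κ1 * ((b : ℝ) ^ s * (q : ℝ) ^ n) ^ κ with hQ
  have hQ0 : 0 < Q := by positivity
  have h5 : c0 ≤ Q * dZ z := hx a ha s n (round z)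
  -- the sizes
  have hlogQ : Real.log Q = κ1 * Real.log a + κ * (s * Real.log b + n * Real.log q) := by
    rw [hQ, Real.log_mul (by positivity) (by positivity), Real.log_rpow ha0,
      Real.log_rpow (by positivity), Real.log_mul (by positivity) (by positivity), Real.log_pow,
      Real.log_pow]
  have h6 : Q ≤ c0 * (b : ℝ) ^ A := by
    have h7 : Real.log Q ≤ Real.log (c0 * (b : ℝ) ^ A) := by
      rw [Real.log_mul hc0.ne' (by positivity), Real.log_pow, hlogQ]
      have h8 : X * Real.log b ≤ A * Real.log b := mul_le_mul_of_nonneg_right hA1 hlb.le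
      have h9 : X * Real.log b = κ * (s * Real.log b + n * Real.log q) +
          κ1 * Real.log a + |Real.log c0| := by
        rw [hX]
        field_simp
      have h10 : -|Real.log c0| ≤ Real.log c0 := neg_abs_le _
      rw [h9] at h8
      linarith
    exact (Real.log_le_log_iff hQ0 (by positivity)).1 h7
  have h7 : 0 ≤ dZ z := abs_nonneg _
  have h8 : c0 ≤ c0 * (b : ℝ) ^ A * dZ z := h5.trans (mul_le_mul_of_nonneg_right h6 h7)
  have h9 : c0 * (b : ℝ) ^ A * dZ z = c0 * ((b : ℝ) ^ A * dZ z) := by ring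
  rw [h9] at h8
  have h10 : c0 * ((b : ℝ) ^ A * dZ z) < c0 * 1 :=
    mul_lt_mul_of_pos_left (h3.trans hr1) hc0
  linarith

end Pool.Agent.Y951.SW
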