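import Mathlib
import Pool.Agent.Y951.SW.Words
import Pool.Agent.Y949.LW.Pi
import Pool.Agent.TH629.RidM

/-!
Words in all windows of the expansions of the numbers `a q ^ n x`, for algebraic `x`.
-/

set_option autoImplicit false

open Finset Filter Topology

namespace Pool.Agent.Y951.SW

open Pool.Agent.TH461.AL
open Pool.Agent.Y949.LW (Occ exists_core)

/-- algebraic irrational numbers -/
lemma meas_alg {b q : ℕ} (hb : 2 ≤ b) (hq : 2 ≤ q) {x : ℝ} (halg : IsAlgebraic ℚ x)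
    (hirr : Irrational x) {η : ℝ} (hη : 0 < η) : Meas b q x η (1 + η) := by
  intro N hN
  obtain ⟨c, hc, h⟩ := Pool.Agent.TH629.RidM.ridout_meas x halg hirr (b * q).primeFactors
    (fun ℓ hℓ => Nat.prime_of_mem_primeFactors hℓ) η hη
  have hNR : (1 : ℝ) ≤ N := by exact_mod_cast hN
  have hN0 : (0 : ℝ) < N := by linarith
  have hb0 : (0 : ℝ) < b := by exact_mod_cast (by omega : 0 < b)
  have hq0 : (0 : ℝ) < q := by exact_mod_cast (by omega : 0 < q)
  refine ⟨c / (N : ℝ) ^ (1 + η), by positivity, fun a ha s n P => ?_⟩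
  have haR : (1 : ℝ) ≤ a := by exact_mod_cast ha
  have ha0 : (0 : ℝ) < a := by linarith
  set d : ℕ := b ^ s * q ^ n with hd
  have hd0 : 0 < d := by positivity
  have hdR : (0 : ℝ) < d := by exact_mod_cast hd0
  have hdc : (b : ℝ) ^ s * (q : ℝ) ^ n = d := by rw [hd]; push_cast; rfl
  have hbq : b * q ≠ 0 := by positivity
  have h1 := h (N * a * d) (Nat.succ_le_of_lt (by positivity)) d (dvd_mul_left _ _) (by
    intro ℓ hℓ hdv
    rw [Nat.mem_primeFactors]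
    refine ⟨hℓ, ?_, hbq⟩
    rw [hd] at hdv
    rcases (Nat.Prime.dvd_mul hℓ).1 hdv with h2 | h2
    · exact Dvd.dvd.mul_right (hℓ.dvd_of_dvd_pow h2) q
    · exact Dvd.dvd.mul_left (hℓ.dvd_of_dvd_pow h2) b) P
  have e1 : ((N * a * d : ℕ) : ℝ) * x - P = (N : ℝ) * (a * x) * (b : ℝ) ^ s * (q : ℝ) ^ n - P := by
    rw [mul_assoc ((N : ℝ) * (a * x)), hdc]
    push_cast
    ring
  rw [e1] at h1
  have e2 : ((N * a * d : ℕ) : ℝ) ^ (1 + η) =
      (N : ℝ) ^ (1 + η) * (a : ℝ) ^ (1 + η) * ((d : ℝ) ^ η * d) := by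
    push_cast
    rw [Real.mul_rpow (by positivity) hdR.le, Real.mul_rpow hN0.le ha0.le,
      Real.rpow_add hdR, Real.rpow_one, mul_comm (d : ℝ)]
  rw [e2] at h1
  rw [hdc, div_le_iff₀ (by positivity)]
  have h2 : c * d ≤ ((a : ℝ) ^ (1 + η) * (d : ℝ) ^ η *
      |(N : ℝ) * (a * x) * (b : ℝ) ^ s * (q : ℝ) ^ n - P| * (N : ℝ) ^ (1 + η)) * d := by
    refine h1.trans (le_of_eq ?_)
    ring
  exact le_of_mul_le_mul_right h2 hdR

open Classical in
theorem words_alg {x : ℝ} (halg : IsAlgebraic ℚ x) (hirr : Irrational x) (b q : ℕ) (hb : 2 ≤ b)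
    (hq : 2 ≤ q)
    (h : Nat.Coprime b q ∨ ∃ v : ℕ, 2 ≤ v ∧ Nat.Coprime q v ∧ b = q * v) (k R : ℕ)
    (C ε δ : ℝ) (hC : 0 < C) (hε : 0 < ε) (hδ : 0 < δ) :
    ∃ M0 : ℕ, ∀ M J a : ℕ, M0 ≤ M → 1 ≤ a →
      (((range M).filter (fun t : ℕ => ¬ ∀ u ≤ R * (J + M), ∀ W < b ^ k,
        (M : ℝ) ^ (1 - ε) ≤ ((Occ b k (a * (q : ℝ) ^ (J + t) * x) u
          (u + C * (u + ((J + t : ℕ) : ℝ) * Real.log q / Real.log b) +
            (1 + C / 2) * (Real.log a / Real.log b)) W).ncard : ℝ))).card : ℝ) ≤ δ * M := by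
  obtain ⟨r, D, k0, -, hrb, hD, hdn⟩ := exists_core hb hq h
  exact words hb hq hrb hD hdn (by linarith : 0 < C / 2) (by linarith)
    (meas_alg hb hq halg hirr (by linarith)) k R (by linarith) hε hδ

end Pool.Agent.Y951.SW
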